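import Mathlib
import Pool.Agent.H96.Arc.Defs

/-!
# Arc complexes of surfaces with one distinguished point on every boundary component: definitions

`Fam g r s`: the orbits of maximal arc families under the pure mapping class group, for the surface of genus `g`
with `r` boundary components (one distinguished point on each) and `s` punctures; `del` is the orbit of the family
without the arc number `a` (both from `Pool.Agent.H96.Arc.Defs`, where the encoding is explained).
-/

namespace Pool.Agent.H34.AFS

open Pool.Agent.H96.Arc

/-- the orbits of maximal arc families: the simplices of maximal dimension of the arc complex -/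
abbrev Fam (g r s : ℕ) : Type := {x : List ℕ × List ℕ // IsMax g r s x.1 x.2}

/-- the dimension of the arc complex: one less than the number of arcs in a maximal family -/
abbrev dim (g r s : ℕ) : ℕ := top g r s - 1

/-- the disjoint union of the simplices of maximal dimension: a family, and barycentric coordinates, one for every arc
of the family -/
abbrev Pt (g r s : ℕ) : Type := Σ _ : Fam g r s, stdSimplex ℝ (Fin (dim g r s + 1))

/-- the barycentric coordinates -/
def coord {g r s : ℕ} (p : Pt g r s) : Fin (dim g r s + 1) → ℝ := p.2.1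

/-- the orbit of the family without its arc number `a` -/
def without {g r s : ℕ} (p : Pt g r s) (a : Fin (dim g r s + 1)) : List ℕ × List (List ℕ) :=
  del p.1.1.1 p.1.1.2 a

/-- The gluing of the simplices: `p` lies on the face opposite to the arc number `a`, `q` on the face opposite to the
arc number `b`, the families without these arcs are in the same orbit, and the barycentric coordinates with
respect to the remaining arcs (in their order) agree. -/
def Glued {g r s : ℕ} (p q : Pt g r s) : Prop :=
  ∃ a b : Fin (dim g r s + 1), coord p a = 0 ∧ coord q b = 0 ∧ without p a = without q b ∧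
    ∀ j : Fin (dim g r s), coord p (a.succAbove j) = coord q (b.succAbove j)

/-- The arc complex (its realisation): the quotient of the disjoint union of the simplices by the gluings. -/
def Arc (g r s : ℕ) : Type := Quot (Glued (g := g) (r := r) (s := s))

instance (g r s : ℕ) : TopologicalSpace (Arc g r s) :=
  inferInstanceAs (TopologicalSpace (Quot (Glued (g := g) (r := r) (s := s))))

/-- the point of the arc complex -/
def mk {g r s : ℕ} (p : Pt g r s) : Arc g r s := Quot.mk _ p

/-- `ℝ^a × ℝ^b` -/
abbrev RR (a b : ℕ) : Type := (Fin a → ℝ) × (Fin b → ℝ)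

/-- the point `p` lies in the polyhedron given by the inequalities `0 ≤ ∑ ℓ k * x k`, `ℓ ∈ L` -/
def InPoly {g r s : ℕ} (L : List (Fin (dim g r s + 1) → ℝ)) (p : Pt g r s) : Prop :=
  ∀ ℓ ∈ L, 0 ≤ ∑ k, ℓ k * coord p k

/-- the point `y` is the value at `p` of the linear map with the value `T k` at the `k`-th vertex -/
def IsValue {g r s a b : ℕ} (T : Fin (dim g r s + 1) → RR a b) (p : Pt g r s) (y : RR a b) : Prop :=
  (∀ t, y.1 t = ∑ k, coord p k * (T k).1 t) ∧ ∀ t, y.2 t = ∑ k, coord p k * (T k).2 t

/-- a polyhedron in a simplex, given by inequalities, and a linear map, given by its values at the vertices -/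
abbrev Piece (g r s a b : ℕ) : Type := List (Fin (dim g r s + 1) → ℝ) × (Fin (dim g r s + 1) → RR a b)

/-- `f` is piecewise linear: every simplex is covered by finitely many polyhedra on each of which `f` is a linear map
of the barycentric coordinates. -/
def IsPL {g r s a b : ℕ} (f : Arc g r s → RR a b) : Prop :=
  ∀ i : Fam g r s, ∃ Ps : List (Piece g r s a b), ∀ x, (∃ P ∈ Ps, InPoly P.1 ⟨i, x⟩) ∧
    ∀ P ∈ Ps, InPoly P.1 ⟨i, x⟩ → IsValue P.2 ⟨i, x⟩ (f (mk ⟨i, x⟩))

/-- `S ⊆ ℝ^a × ℝ^b` is piecewise linearly homeomorphic to the arc complex: there is a homeomorphism `h` from the arc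
complex onto `S` which is piecewise linear. -/
def IsPLHomeomorphic (g r s a b : ℕ) (S : Set (RR a b)) : Prop :=
  ∃ h : Arc g r s ≃ₜ S, IsPL fun z => (h z).1

/-- The boundary of the standard simplex of dimension `m` in `ℝ^(m+1)`. -/
def boundary (m : ℕ) : Set (Fin (m + 1) → ℝ) := {x | x ∈ stdSimplex ℝ (Fin (m + 1)) ∧ ∃ i, x i = 0}

/-- the set of the vectors with `|v_1| + … + |v_n| = 1` -/
def cross (n : ℕ) : Set (Fin n → ℝ) := {v | ∑ i, |v i| = 1}

/-- the unit sphere of `ℝ^n`, of dimension `n - 1` -/
abbrev Sph (n : ℕ) : Type := {v : Fin n → ℝ // ∑ i, v i ^ 2 = 1}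

/-- the unit sphere of `ℂ^m`, of dimension `2 m - 1` -/
abbrev SphC (m : ℕ) : Type := {v : Fin m → ℂ // ∑ i, ‖v i‖ ^ 2 = 1}

/-- `q` is obtained from `p` by multiplying both points by a complex number of absolute value 1. -/
def HopfRel (m : ℕ) (p q : SphC 2 × SphC m) : Prop :=
  ∃ z : ℂ, ‖z‖ = 1 ∧ (∀ i, q.1.1 i = z * p.1.1 i) ∧ ∀ i, q.2.1 i = z * p.2.1 i

/-- `(S³ × S^(2m-1)) / S¹`, where `S³ ⊆ ℂ²` and `S^(2m-1) ⊆ ℂ^m` are the unit spheres and `S¹ ⊆ ℂ` acts
diagonally by multiplication. -/
def HopfSphere (m : ℕ) : Type := Quot (HopfRel m)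

instance (m : ℕ) : TopologicalSpace (HopfSphere m) := inferInstanceAs (TopologicalSpace (Quot (HopfRel m)))

end Pool.Agent.H34.AFS
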