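import Pool.Agent.H34.AFS.Defs
import Pool.Agent.H34.R2.Final
import Pool.Agent.H34.R3.Final
import Pool.Agent.H34.R4.Final
import Pool.Agent.H34.G1.Final

/-!
# The arc complexes of the four type 1 surfaces in the language of `AFS.Defs`
-/

namespace Pool.Agent.H34.AFS

open Pool.Agent.H96.Arc Pool.Agent.H34.PLE

theorem rel_iff (g r s : ℕ) (p q : Pt g r s) :
    Glued p q ↔ (arcComplex g r s).Rel p q := by
  constructor
  · rintro ⟨a, b, h1, h2, h3, h4⟩
    exact ⟨a, b, h1, h2, congrArg Encodable.encode h3, h4⟩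
  · rintro ⟨a, b, h1, h2, h3, h4⟩
    exact ⟨a, b, h1, h2, Encodable.encode_injective h3, h4⟩

/-- the two realisations are the same -/
noncomputable def e (g r s : ℕ) : Arc g r s ≃ₜ (arcComplex g r s).Real where
  toFun := Quot.lift (fun p => Quot.mk _ p) (fun p q h => Quot.sound ((rel_iff g r s p q).1 h))
  invFun := Quot.lift (fun p => Quot.mk _ p) (fun p q h => Quot.sound ((rel_iff g r s p q).2 h))
  left_inv := by rintro ⟨p⟩; rfl
  right_inv := by rintro ⟨p⟩; rfl
  continuous_toFun := continuous_quot_lift _ continuous_quot_mk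
  continuous_invFun := continuous_quot_lift _ continuous_quot_mk

theorem lin_sum {n : ℕ} (ℓ : (Fin n → ℝ) →ₗ[ℝ] ℝ) (x : Fin n → ℝ) :
    ℓ x = ∑ k, ℓ (Pi.single k 1) * x k := by
  have := LinearMap.pi_apply_eq_sum_univ ℓ x
  rw [this]
  refine Finset.sum_congr rfl ?_
  intro k _
  rw [smul_eq_mul, mul_comm]
  congr 2
  funext j
  simp [Pi.single_apply, eq_comm]

theorem of_old {g r s a b : ℕ} {S : Set (RR a b)}
    (h : PLHomeoOnto (arcComplex g r s) S) : IsPLHomeomorphic g r s a b S := by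
  obtain ⟨f, hf⟩ := h
  refine ⟨(e g r s).trans f, ?_⟩
  intro i
  obtain ⟨Ps, h1, h2⟩ := hf i
  refine ⟨Ps.map (fun P => (P.1.map (fun ℓ k => ℓ (Pi.single k 1)),
    fun k => P.2 (Pi.single k 1))), ?_⟩
  have hin : ∀ (L : List ((Fin (dim g r s + 1) → ℝ) →ₗ[ℝ] ℝ))
      (x : stdSimplex ℝ (Fin (dim g r s + 1))),
      InPoly (L.map (fun ℓ k => ℓ (Pi.single k 1))) (⟨i, x⟩ : Pt g r s) ↔ ∀ ℓ ∈ L, 0 ≤ ℓ x.1 := by
    intro L x
    unfold InPoly
    constructor
    · intro h ℓ hℓ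
      have := h _ (List.mem_map.2 ⟨ℓ, hℓ, rfl⟩)
      rw [lin_sum ℓ x.1]
      exact this
    · intro h ℓ' hℓ'
      obtain ⟨ℓ, hℓ, rfl⟩ := List.mem_map.1 hℓ'
      have := h ℓ hℓ
      rw [lin_sum ℓ x.1] at this
      exact this
  intro x
  constructor
  · obtain ⟨P, hP, hx⟩ := h1 x
    exact ⟨_, List.mem_map.2 ⟨P, hP, rfl⟩, (hin P.1 x).2 hx⟩
  · intro P' hP' hx
    obtain ⟨P, hP, rfl⟩ := List.mem_map.1 hP'
    have h3 := h2 P hP x ((hin P.1 x).1 hx)
    have h4 : (((e g r s).trans f) (mk ⟨i, x⟩) : RR a b) = P.2 x.1 := h3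
    show IsValue _ _ ((((e g r s).trans f) (mk ⟨i, x⟩) : S) : RR a b)
    rw [h4]
    constructor
    · intro t
      have := lin_sum (((LinearMap.proj t : (Fin a → ℝ) →ₗ[ℝ] ℝ).comp
        (LinearMap.fst ℝ (Fin a → ℝ) (Fin b → ℝ))).comp P.2) x.1
      refine this.trans (Finset.sum_congr rfl ?_)
      intro k _
      exact mul_comm _ _
    · intro t
      have := lin_sum (((LinearMap.proj t : (Fin b → ℝ) →ₗ[ℝ] ℝ).comp
        (LinearMap.snd ℝ (Fin a → ℝ) (Fin b → ℝ))).comp P.2) x.1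
      refine this.trans (Finset.sum_congr rfl ?_)
      intro k _
      exact mul_comm _ _

theorem homeo {X Y : Type} [TopologicalSpace X] [TopologicalSpace Y] {g r s : ℕ}
    (h : Nonempty ((arcComplex g r s).Real ≃ₜ X)) (h' : X ≃ₜ Y) : Nonempty (Arc g r s ≃ₜ Y) := by
  obtain ⟨f⟩ := h
  exact ⟨((e g r s).trans f).trans h'⟩

/-- the unit spheres -/
noncomputable def sph (n : ℕ) : Metric.sphere (0 : EuclideanSpace ℝ (Fin n)) 1 ≃ₜ Sph n where
  toFun v := ⟨fun i => v.1 i, by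
    have h := v.2
    rw [mem_sphere_zero_iff_norm, EuclideanSpace.norm_eq, Real.sqrt_eq_one] at h
    simpa [Real.norm_eq_abs, sq_abs] using h⟩
  invFun v := ⟨WithLp.toLp 2 v.1, by
    rw [mem_sphere_zero_iff_norm, EuclideanSpace.norm_eq, Real.sqrt_eq_one]
    simpa [Real.norm_eq_abs, sq_abs] using v.2⟩
  left_inv v := by
    apply Subtype.ext
    rfl
  right_inv v := by
    apply Subtype.ext
    rfl
  continuous_toFun := by
    refine Continuous.subtype_mk ?_ _
    exact (PiLp.continuous_ofLp 2 _).comp continuous_subtype_val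
  continuous_invFun := by
    refine Continuous.subtype_mk ?_ _
    exact (PiLp.continuous_toLp 2 _).comp continuous_subtype_val

/-- the complex unit spheres -/
noncomputable def sphC (n : ℕ) : Metric.sphere (0 : EuclideanSpace ℂ (Fin n)) 1 ≃ₜ SphC n where
  toFun v := ⟨fun i => v.1 i, by
    have h := v.2
    rw [mem_sphere_zero_iff_norm, EuclideanSpace.norm_eq, Real.sqrt_eq_one] at h
    exact h⟩
  invFun v := ⟨WithLp.toLp 2 v.1, by
    rw [mem_sphere_zero_iff_norm, EuclideanSpace.norm_eq, Real.sqrt_eq_one]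
    exact v.2⟩
  left_inv v := by
    apply Subtype.ext
    rfl
  right_inv v := by
    apply Subtype.ext
    rfl
  continuous_toFun := by
    refine Continuous.subtype_mk ?_ _
    exact (PiLp.continuous_ofLp 2 _).comp continuous_subtype_val
  continuous_invFun := by
    refine Continuous.subtype_mk ?_ _
    exact (PiLp.continuous_toLp 2 _).comp continuous_subtype_val

theorem hopf_iff (m : ℕ) (p q : Pool.Agent.H95.TB.SC 2 × Pool.Agent.H95.TB.SC m) :
    Pool.Agent.H95.TB.HopfRel m p q ↔ HopfRel m (sphC 2 p.1, sphC m p.2) (sphC 2 q.1, sphC m q.2) := by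
  constructor
  · rintro ⟨z, hz, h1, h2⟩
    refine ⟨z, hz, ?_, ?_⟩
    · intro i
      exact congrFun (congrArg WithLp.ofLp h1) i
    · intro i
      exact congrFun (congrArg WithLp.ofLp h2) i
  · rintro ⟨z, hz, h1, h2⟩
    refine ⟨z, hz, ?_, ?_⟩
    · ext i
      exact h1 i
    · ext i
      exact h2 i

/-- the two models of the quotient -/
noncomputable def hopf (m : ℕ) : Pool.Agent.H95.TB.HopfSphere m ≃ₜ HopfSphere m where
  toFun := Quot.lift (fun p => Quot.mk _ (sphC 2 p.1, sphC m p.2))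
    (fun p q h => Quot.sound ((hopf_iff m p q).1 h))
  invFun := Quot.lift (fun p => Quot.mk _ ((sphC 2).symm p.1, (sphC m).symm p.2))
    (fun p q h => Quot.sound ((hopf_iff m _ _).2 (by simpa using h)))
  left_inv := by
    rintro ⟨p⟩
    show Quot.mk _ ((sphC 2).symm (sphC 2 p.1), (sphC m).symm (sphC m p.2)) = Quot.mk _ p
    rw [Homeomorph.symm_apply_apply, Homeomorph.symm_apply_apply]
  right_inv := by
    rintro ⟨p⟩
    show Quot.mk _ ((sphC 2) ((sphC 2).symm p.1), (sphC m) ((sphC m).symm p.2)) = Quot.mk _ p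
    rw [Homeomorph.apply_symm_apply, Homeomorph.apply_symm_apply]
  continuous_toFun := continuous_quot_lift _
    (continuous_quot_mk.comp (((sphC 2).continuous.comp continuous_fst).prodMk
      ((sphC m).continuous.comp continuous_snd)))
  continuous_invFun := continuous_quot_lift _
    (continuous_quot_mk.comp (((sphC 2).symm.continuous.comp continuous_fst).prodMk
      ((sphC m).symm.continuous.comp continuous_snd)))

theorem main :
    (IsPLHomeomorphic 0 2 2 4 5 (boundary 3 ×ˢ boundary 4) ∧ Nonempty (Arc 0 2 2 ≃ₜ Sph 3 × Sph 4)) ∧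
    (IsPLHomeomorphic 0 4 0 4 8 (boundary 3 ×ˢ cross 8) ∧ Nonempty (Arc 0 4 0 ≃ₜ Sph 3 × Sph 8)) ∧
    Nonempty (Arc 0 3 1 ≃ₜ HopfSphere 3) ∧ Nonempty (Arc 1 2 0 ≃ₜ HopfSphere 3) :=
  ⟨⟨of_old Pool.Agent.H34.R2.onto, homeo Pool.Agent.H34.R2.spheres ((sph 3).prodCongr (sph 4))⟩,
    ⟨of_old Pool.Agent.H34.R4.onto, homeo Pool.Agent.H34.R4.spheres ((sph 3).prodCongr (sph 8))⟩,
    homeo Pool.Agent.H34.R3.hopf (hopf 3), homeo Pool.Agent.H34.G1.hopf (hopf 3)⟩

end Pool.Agent.H34.AFS
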